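import Pool.Agent.H876.Res.LU
import Pool.Agent.H876.Res.Charts

/-!
# Local uniformization and incidence schemes of plane configurations

Fix the four points `(1 : 0 : 0)`, `(0 : 1 : 0)`, `(0 : 0 : 1)`, `(1 : 1 : 1)` of the projective plane
over `k`, the four lines `y = 0`, `y = z`, `z = 0`, `x = 0`, and finitely many points `(c_j : 0 : 1)`.
The incidence scheme of a datum is the affine scheme of all positions of `N` further points on prescribed
ones of these lines such that the triples of a given set (of the fixed and variable points) are collinear.

We show that every local domain which is essentially of finite type over a perfect field `k` is isomorphic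
to a local ring of an incidence scheme over `k`; the incidence scheme is integral, for the generic position
the points are pairwise distinct and the collinear triples are exactly the given ones, and the open
subscheme of these positions is smooth. If the residue field is `k`, the point is a position with
coordinates in `k`. Over the integers no fixed points are needed. So Q1 for local domains essentially of
finite type over perfect fields, or over `ℤ`, is equivalent to Q1 for these local rings.
-/

set_option autoImplicit false

open IsLocalRing MvPolynomial Pool.Agent.H876.PL Pool.Agent.H876.Res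

namespace Pool.Agent.Results.MP_3029eb_ag.IncidenceSchemes

/-- The datum of an incidence scheme over `O`: the fixed points `(c_j : 0 : 1)`, with different
`c_j ≠ 0, 1`, the number `N` of variable points, the numbers of their lines, and the collinear triples. -/
structure Datum (O : Type) [CommRing O] where
  r : ℕ
  c : Fin r → O
  injective : Function.Injective c
  ne_zero : ∀ j, c j ≠ 0
  ne_one : ∀ j, c j ≠ 1
  N : ℕ
  line : Fin N → Fin 4
  coll : Finset (Lab r (Fin N) × Lab r (Fin N) × Lab r (Fin N))

/-- The coordinate ring of the incidence scheme: the polynomials in the coordinates of the variable points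
modulo the determinants of the given triples. -/
abbrev Datum.incRing {O : Type} [CommRing O] (d : Datum O) : Type :=
  MvPolynomial (Fin d.N) O ⧸ collIdeal d.c d.line d.coll

/-- The ring of functions on the open subscheme of the positions for which no other triples are
collinear. -/
abbrev Datum.openRing {O : Type} [CommRing O] (d : Datum O) : Type := ConfRing d.c d.line d.coll

/-- The incidence scheme is integral, the points of the positions in the open subscheme are pairwise
distinct, and the open subscheme is nonempty and has the property `Sm` (smoothness). -/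
structure Datum.IsFine {O : Type} [CommRing O] (Sm : ∀ (B : Type) [CommRing B] [Algebra O B], Prop)
    (d : Datum O) : Prop where
  integral : IsDomain d.incRing
  distinct : Distinct d.coll
  nonempty : IsDomain d.openRing
  smooth : Sm d.openRing

/-- A position with coordinates in `O`: the given triples are collinear. -/
def Datum.IsPosition {O : Type} [CommRing O] (d : Datum O) (q : Fin d.N → O) : Prop :=
  ∀ t ∈ d.coll, det3 d.c d.line q t = 0

/-- Smoothness over a field. -/
def SmoothOver (k : Type) [Field k] (B : Type) [CommRing B] [Algebra k B] : Prop :=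
  Algebra.Smooth k B

/-- Smoothness over the integers or over a prime field of positive characteristic. -/
def SmoothInt (B : Type) [CommRing B] [Algebra ℤ B] : Prop :=
  Algebra.Smooth ℤ B ∨ ∃ (p : ℕ) (_ : Fact p.Prime) (_ : Algebra (ZMod p) B),
    Algebra.Smooth (ZMod p) B

section position

variable {k : Type} [Field k] (d : Datum k)

/-- The point of the incidence scheme with the prime ideal `p` is the position `q`. -/
def Datum.AtPosition (p : Ideal d.incRing) (q : Fin d.N → k) : Prop :=
  d.IsPosition q ∧ ∀ f : MvPolynomial (Fin d.N) k,
    Ideal.Quotient.mk (collIdeal d.c d.line d.coll) f ∈ p ↔ eval q f = 0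

lemma aeval_self (q : Fin d.N → k) (f : MvPolynomial (Fin d.N) k) : aeval q f = eval q f := by
  rw [← coe_aeval_eq_eval]
  rfl

lemma exists_position (p : Ideal d.incRing) [p.IsPrime] (L : Type) [CommRing L] [IsLocalRing L]
    [Algebra k L] (e : L ≃ₐ[k] Localization.AtPrime p)
    (hres : Function.Surjective (algebraMap k (ResidueField L))) : ∃ q, d.AtPosition p q := by
  let φ : MvPolynomial (Fin d.N) k →ₐ[k] ResidueField L :=
    ((IsScalarTower.toAlgHom k L (ResidueField L)).comp e.symm.toAlgHom).comp
      ((IsScalarTower.toAlgHom k d.incRing (Localization.AtPrime p)).comp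
        (Ideal.Quotient.mkₐ k (collIdeal d.c d.line d.coll)))
  choose q hq using fun i => hres (φ (X i))
  have h1 : φ = (Algebra.ofId k (ResidueField L)).comp (aeval q) := by
    apply MvPolynomial.algHom_ext
    intro i
    rw [← hq i]
    change _ = algebraMap k (ResidueField L) (aeval q (X i))
    rw [aeval_X]
  have h2 : ∀ f, φ f = algebraMap k (ResidueField L) (eval q f) := by
    intro f
    rw [h1]
    change algebraMap k (ResidueField L) (aeval q f) = _
    rw [aeval_self]
  have hk : Function.Injective (algebraMap k (ResidueField L)) :=
    (algebraMap k (ResidueField L)).injective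
  refine ⟨q, ?_, ?_⟩
  · intro t ht
    have h3 : aeval q (det3 d.c d.line (X : Fin d.N → MvPolynomial (Fin d.N) k) t) =
        det3 d.c d.line q t := by
      rw [map_det3]
      congr 1
      funext i
      exact aeval_X q i
    rw [← h3, aeval_self]
    apply hk
    rw [← h2, map_zero]
    have h4 : Ideal.Quotient.mk (collIdeal d.c d.line d.coll)
        (det3 d.c d.line (X : Fin d.N → MvPolynomial (Fin d.N) k) t) = 0 := by
      rw [Ideal.Quotient.eq_zero_iff_mem]
      exact Ideal.subset_span ⟨⟨t, ht⟩, rfl⟩
    change algebraMap L (ResidueField L) (e.symm (algebraMap d.incRing (Localization.AtPrime p)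
      (Ideal.Quotient.mk (collIdeal d.c d.line d.coll) _))) = 0
    rw [h4, map_zero, map_zero, map_zero]
  · intro f
    rw [← map_eq_zero_iff _ hk, ← h2]
    change _ ↔ residue L (e.symm (algebraMap d.incRing (Localization.AtPrime p)
      (Ideal.Quotient.mk (collIdeal d.c d.line d.coll) f))) = 0
    rw [residue_eq_zero_iff, mem_maximalIdeal, mem_nonunits_iff, MulEquiv.isUnit_map,
      IsLocalization.AtPrime.isUnit_to_map_iff (Localization.AtPrime p) p]
    exact not_not.symm

end position

lemma ess_int (L : Type) [CommRing L] (i j : Algebra ℤ L)
    (h : @Algebra.EssFiniteType ℤ L _ _ i) : @Algebra.EssFiniteType ℤ L _ _ j := by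
  obtain rfl : i = j := Subsingleton.elim _ _
  exact h

/-- `d` is a fine datum over the field `k`. -/
def IsFineOver (k : Type) [Field k] (d : Datum k) : Prop := d.IsFine (SmoothOver k)

/-- `d` is a fine datum over the integers, without fixed points `(c_j : 0 : 1)`. -/
def IsFineInt (d : Datum ℤ) : Prop :=
  d.r = 0 ∧ d.IsFine (fun B [CommRing B] [Algebra ℤ B] => SmoothInt B)

/-- The local ring `R` over `k` is isomorphic to a local ring of the incidence scheme of a fine datum over
`k`; if its residue field is `k`, then this is the local ring at a position with coordinates in `k`. -/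
def IsLocalRingOver (k R : Type) [Field k] [CommRing R] [IsLocalRing R] [Algebra k R] : Prop :=
  ∃ d : Datum k, IsFineOver k d ∧ ∃ (p : Ideal d.incRing) (_ : p.IsPrime),
    Nonempty (R ≃ₐ[k] Localization.AtPrime p) ∧
      (Function.Surjective (algebraMap k (ResidueField R)) → ∃ q, d.AtPosition p q)

/-- The local ring `R` is isomorphic to a local ring of the incidence scheme of a fine datum over `ℤ`. -/
def IsLocalRingInt (R : Type) [CommRing R] : Prop :=
  ∃ d : Datum ℤ, IsFineInt d ∧ ∃ (p : Ideal d.incRing) (_ : p.IsPrime),
    Nonempty (R ≃+* Localization.AtPrime p)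

/-- All local domains essentially of finite type over `k` admit local uniformization. -/
def AllAdmitLU (k : Type) [CommRing k] : Prop :=
  ∀ (R : Type) [CommRing R] [IsDomain R] [IsLocalRing R] [Algebra k R] [Algebra.EssFiniteType k R],
    AdmitsLU R

/-- All local rings of the incidence schemes of the data with the property `F` admit local
uniformization. -/
def IncidenceAdmitLU (k : Type) [CommRing k] (F : Datum k → Prop) : Prop :=
  ∀ d : Datum k, F d → ∀ (p : Ideal d.incRing) (_ : p.IsPrime), AdmitsLU (Localization.AtPrime p)

lemma over_field (k : Type) [Field k] [PerfectField k] (R : Type) [CommRing R] [IsDomain R]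
    [IsLocalRing R] [Algebra k R] [Algebra.EssFiniteType k R] : IsLocalRingOver k R := by
  obtain ⟨B, _, _, _, hft, hB⟩ := exists_localization k R
  obtain ⟨r, c, N, l, Z, hP, h1, h2, h3, ⟨e⟩⟩ := exists_exact (R := k) generic_smooth
    (fun _ c => Function.Injective c ∧ (∀ j, c j ≠ 0) ∧ ∀ j, c j ≠ 1) (by
      intro B _ _ _ F
      obtain ⟨r, c, h1, h2, h3, h4⟩ := exists_consts F
      refine ⟨r, c, fun x hx => ?_, bpt_inj B c h2 h3, h2, h3, h4⟩
      rcases h1 x hx with rfl | rfl | ⟨j, rfl⟩
      · exact cst_zero c
      · exact cst_one c
      · exact cst_fix c j) B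
  obtain ⟨p, hp, ⟨e'⟩⟩ := hB _ ⟨e⟩
  let d : Datum k := ⟨r, c, hP.1, hP.2.1, hP.2.2, N, l, Z⟩
  exact ⟨d, ⟨e.toMulEquiv.isDomain B, h1, h2, h3⟩, p, hp, ⟨e'⟩,
    fun hres => exists_position d p R e' hres⟩

lemma over_int (R : Type) [CommRing R] [IsDomain R] [IsLocalRing R] [Algebra ℤ R]
    [Algebra.EssFiniteType ℤ R] : IsLocalRingInt R := by
  obtain ⟨B, _, _, _, hft, hB⟩ := exists_localization ℤ R
  obtain ⟨r, c, N, l, Z, hr, h1, h2, h3, ⟨e⟩⟩ := exists_exact (R := ℤ) generic_int
    (fun r _ => r = 0) (by
      intro B _ _ _ F
      refine ⟨0, ![], fun x _ => ?_, bpt_inj_zero B _, rfl⟩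
      have := cst_int (![] : Fin 0 → ℤ) x
      rwa [Int.cast_id] at this) B
  subst hr
  obtain ⟨p, hp, ⟨e'⟩⟩ := hB _ ⟨e⟩
  exact ⟨⟨0, c, fun i => i.elim0, fun i => i.elim0, fun i => i.elim0, N, l, Z⟩,
    ⟨rfl, ⟨e.toMulEquiv.isDomain B, h1, h2, h3⟩⟩, p, hp, ⟨e'.toRingEquiv⟩⟩

/-- **Main theorem.** (1) Every local domain essentially of finite type over a perfect field `k` is a local
ring of an incidence scheme over `k`. (2) The same over `ℤ`, without fixed points. (3), (4) All these local
domains admit local uniformization if and only if the local rings of the incidence schemes do. -/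
theorem result :
    (∀ (k : Type) [Field k] [PerfectField k] (R : Type) [CommRing R] [IsDomain R] [IsLocalRing R]
      [Algebra k R] [Algebra.EssFiniteType k R], IsLocalRingOver k R) ∧
    (∀ (R : Type) [CommRing R] [IsDomain R] [IsLocalRing R] [Algebra ℤ R]
      [Algebra.EssFiniteType ℤ R], IsLocalRingInt R) ∧
    (∀ (k : Type) [Field k] [PerfectField k], AllAdmitLU k ↔ IncidenceAdmitLU k (IsFineOver k)) ∧
    (AllAdmitLU ℤ ↔ IncidenceAdmitLU ℤ IsFineInt) := by
  refine ⟨fun k _ _ R _ _ _ _ _ => over_field k R, fun R _ _ _ _ _ => over_int R, ?_, ?_⟩
  · intro k _ _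
    constructor
    · intro h d hd p hp
      have := hd.integral
      have : IsDomain (Localization.AtPrime p) :=
        IsLocalization.isDomain_localization p.primeCompl_le_nonZeroDivisors
      exact h (Localization.AtPrime p)
    · intro h R _ _ _ _ _
      obtain ⟨d, hd, p, hp, ⟨e⟩, -⟩ := over_field k R
      exact admitsLU_of_equiv e.symm.toRingEquiv (h d hd p hp)
  · constructor
    · intro h d hd p hp
      have := hd.2.integral
      have : IsDomain (Localization.AtPrime p) :=
        IsLocalization.isDomain_localization p.primeCompl_le_nonZeroDivisors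
      exact h (Localization.AtPrime p)
    · intro h R _ _ _ _ _
      obtain ⟨d, hd, p, hp, ⟨e⟩⟩ := over_int R
      exact admitsLU_of_equiv e.symm (h d hd p hp)

end Pool.Agent.Results.MP_3029eb_ag.IncidenceSchemes
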