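import Pool.Agent.H893.TW.Cls
import Pool.Agent.H893.EC.Ring
import Pool.Agent.H893.DD.P_rank
import Pool.Graph.R_seed8.H176.DT.G1
import Pool.Graph.R_seed8.H176.DT.H8
import Pool.Graph.R_seed8.TH188.QS.Bases3

/-!
MP_3029eb_ag: embedded local uniformization, on local domains essentially of finite type over a base
ring, of a class of valuations of arbitrary rank with defect, which is closed under composition,
under towers without defect and under henselian descent, in all dimensions and in mixed
characteristic.

Let `R` be a base ring: each quotient domain `R / 𝔭` is a field, or is of finite type over a regular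
domain `R₁` such that `R₁` is `F`-finite, or `R₁` is formally smooth over a perfect field, or `R₁`
is a subring of `R / 𝔭` and `R / 𝔭` has characteristic zero. (Examples: fields, the integers and
other Dedekind domains of characteristic zero, `F`-finite regular rings, complete local rings with
an `F`-finite residue field.)

Let `k` be the fraction field of a quotient domain of `R`, of characteristic `p > 0` (perfect or
not). A valuation ring of a finitely generated field `K` over `k` is called nearly Abhyankar if it
has rank one, contains `k`, has a separably generated residue field, and if it misses equality in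
the Abhyankar inequality by at most one: `tr.deg(K / k)` is `r + s` or `r + s + 1`, where `r ≥ 1` is
the rational rank and `s` is the transcendence degree of the residue field; in the second case the
residue field has to be finitely generated over `k`, and infinite if `r = 1`. In the second case the
value group and the defect are arbitrary. It is called ruled of deficiency two if it has rank one,
contains `k`, its residue field is finitely generated over `k`, `tr.deg(K / k) = r + s + 2` with
`r ≥ 2`, and `K = E(t)` for a finitely generated subfield `E` of the transcendence degree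
`r + s + 1` over `k` which contains elements with `r` independent values and lifts of the elements
of a separating transcendence basis of the residue field.

Let `Admissible R` be the smallest class of valuation rings of fields over `R` which contains the
nearly Abhyankar ones, the ruled ones of deficiency two, the discrete and the divergent ones, and
the ones which are known to be log uniformizable (for example, by Cossart and Piltant, in dimension
at most `3`), and which is closed under composition, under towers without defect, and under
henselian descent: if `V` is a valuation ring of rank one and of finite rational rank of a finite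
extension `L` of `F` which lies in the henselization of `F`, and if `V` is in the class, then
`V ∩ F` is in the class. (For example, `R` can be `ℤ`, and `V` can be the composite of a discrete
valuation ring of a field of characteristic zero, whose residue field has characteristic `p`, and of
a nearly Abhyankar or ruled valuation ring.)

Every `V` in the class admits embedded local uniformization on every local domain `S` with the
fraction field `K` which is essentially of finite type over `R` and dominated by `V`.
-/

set_option autoImplicit false

universe u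

namespace Pool.Agent.Results.MP_3029eb_ag.LocalDomainsWithDefect

open IsLocalRing Pool.Agent.W418.LU2 Pool.Agent.TH188.QS Pool.Agent.H893.EC
open scoped NNReal

/-- The local ring of `Spec B` at the centre of the valuation ring `V`: the fractions of elements
of `B` whose denominators are units of `V`. -/
def centreRing {F : Type u} [Field F] (V : ValuationSubring F) (B : Subring F) : Subring F where
  carrier := {x | ∃ a ∈ B, ∃ b ∈ B, b ≠ 0 ∧ b⁻¹ ∈ V ∧ x = a * b⁻¹}
  mul_mem' := (lo V.toSubring B).mul_mem'
  one_mem' := (lo V.toSubring B).one_mem'
  add_mem' := (lo V.toSubring B).add_mem'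
  zero_mem' := (lo V.toSubring B).zero_mem'
  neg_mem' := (lo V.toSubring B).neg_mem'

/-- The chart `A[I / f]` of the blowing-up of `Spec A` in the ideal `I`. -/
def blowUpChart {F : Type u} [Field F] (A : Subring F) (I : Ideal A) (f : A) : Subring F :=
  Subring.closure ((A : Set F) ∪ {z | ∃ a ∈ I, z = (a : F) / (f : F)})

/-- `P` is a regular local ring and the zero set of `J` is a divisor with strict normal
crossings: the radical of `J` is generated by the product of some of the elements of a regular
system of parameters. -/
def RegularPair (P : Type u) [CommRing P] (J : Ideal P) : Prop :=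
  ∃ (_ : IsRegularLocalRing P) (n : ℕ) (x : Fin n → P) (s : Finset (Fin n)),
    Ideal.span (Set.range x) = IsLocalRing.maximalIdeal P ∧ ringKrullDim P = n ∧
      J.radical = Ideal.span {∏ i ∈ s, x i}

/-- The blowing-up of `X = Spec A` in `V(I)` is a log desingularization of `(X, V(D))` along the
valuation ring `V`. Here `f ∈ I` generates `I V`, the centre of the lift of the valuation lies in
the chart `Spec A[I / f]`, and the ideal `D I` defines the preimage of `V(D) ∪ V(I)`. -/
def IsLogDesingularization {F : Type u} [Field F] (V : ValuationSubring F) (A : Subring F)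
    (D I : Ideal A) : Prop :=
  ∃ f ∈ I, f ≠ 0 ∧ (∀ a ∈ I, (a : F) / (f : F) ∈ V) ∧
    RegularPair (centreRing V (blowUpChart A I f))
      (Ideal.span {z | ∃ a ∈ D * I, (z : F) = (a : F)})

/-- The valuation ring `V` is log uniformizable on `Spec A`. (The blowings-up in the ideals
`I₀ * I₁` are cofinal: the blowing-up in `I₀ * I₁` factors through the blowing-up in `I₀`.) -/
def IsLogUniformizable {F : Type u} [Field F] (V : ValuationSubring F) (A : Subring F) : Prop :=
  ∀ D I₀ : Ideal A, D ≠ ⊥ → I₀ ≠ ⊥ →
    ∃ I₁ : Ideal A, I₁ ≠ ⊥ ∧ IsLogDesingularization V A D (I₀ * I₁)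

/-- A ring of prime characteristic `p` which is a finite module over its ring of `p`-th powers. -/
def IsFFinite (R : Type u) [CommRing R] : Prop :=
  ∃ (p : ℕ) (_ : Fact p.Prime) (_ : CharP R p), (frobenius R p).Finite

/-- A ring which is formally smooth over a perfect field. -/
def IsFormallySmoothOverPerfectField (R : Type u) [CommRing R] : Prop :=
  ∃ (k : Type u) (_ : Field k) (_ : PerfectField k) (_ : Algebra k R), Algebra.FormallySmooth k R

/-- The rings `R` over which the domains of finite type are considered: each quotient domain
`R / 𝔭` is a field, or it is of finite type over a regular domain `R₁` such that `R₁` is `F`-finite,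
or `R₁` is formally smooth over a perfect field, or `R₁` is a subring of `R / 𝔭` and `R / 𝔭` has
characteristic zero. -/
def IsBaseRing (R : Type u) [CommRing R] : Prop :=
  ∀ 𝔭 : Ideal R, 𝔭.IsPrime → IsField (R ⧸ 𝔭) ∨
    ∃ (R₁ : Type u) (_ : CommRing R₁) (_ : IsDomain R₁) (_ : IsRegularRing R₁)
      (σ : R₁ →+* R ⧸ 𝔭), σ.FiniteType ∧
        (IsFFinite R₁ ∨ IsFormallySmoothOverPerfectField R₁ ∨
          (Function.Injective σ ∧ CharZero (R ⧸ 𝔭)))

/-- The subring `P` of the field `K` is a regular local ring with a regular system of parameters `x`
such that every element of `Z` is the product of a unit of `P` and a monomial in the `x i`, with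
exponents `≥ 0` for the elements of `Z` which lie in the valuation ring `V`. -/
def IsAdapted {K : Type u} [Field K] (V : ValuationSubring K) (P : Subring K) (Z : Set K) : Prop :=
  ∃ (_ : IsRegularLocalRing P) (n : ℕ) (x : Fin n → P),
    Ideal.span (Set.range x) = IsLocalRing.maximalIdeal P ∧ ringKrullDim P = n ∧
      ∀ z ∈ Z, ∃ (u : Pˣ) (γ : Fin n → ℤ),
        z = ((u : P) : K) * ∏ i, (x i : K) ^ γ i ∧ (z ∈ V → ∀ i, 0 ≤ γ i)

/-- The valuation ring `V` of `K` admits embedded local uniformization on the subring `S`: for
every finite set `Z` of nonzero elements of `K` there is a finitely generated `S`-algebra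
`B = S[H]` in `V` such that the local ring of `B` at the centre of `V` is regular and has a regular
system of parameters in which the elements of `Z` are units times monomials. -/
def AdmitsEmbeddedLocalUniformization {K : Type u} [Field K] (V : ValuationSubring K)
    (S : Subring K) : Prop :=
  ∀ Z : Set K, Z.Finite → (∀ z ∈ Z, z ≠ 0) → ∃ H : Set K, H.Finite ∧
    ∃ B : Subring K, B = Subring.closure ((S : Set K) ∪ H) ∧ B ≤ V.toSubring ∧
      IsAdapted V (centreRing V B) Z

/-- The image of the `R`-algebra generated by `T`. -/
def adjoined {R K : Type u} [CommRing R] [Field K] (ρ : R →+* K) (T : Set K) : Subring K :=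
  Subring.closure ((ρ.range : Set K) ∪ T)

/-- Every element of the field `K` is a fraction of elements of `A`. -/
def HasFractionField {K : Type u} [Field K] (A : Subring K) : Prop :=
  ∀ z : K, ∃ a ∈ A, ∃ b ∈ A, b ≠ 0 ∧ z = a * b⁻¹

/-- The field `K` is finitely generated over `R`: it is the fraction field of an `R`-algebra of
finite type. -/
def IsFinitelyGenerated {R K : Type u} [CommRing R] [Field K] (ρ : R →+* K) : Prop :=
  ∃ T : Set K, T.Finite ∧ HasFractionField (adjoined ρ T)

/-- The quadratic transform of `Q` along `V`: the local ring, at the centre of `V`, of the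
blowing-up of `Spec Q` in the centre of `V`. -/
def quadraticTransform {K : Type u} [Field K] (V : ValuationSubring K) (Q : Subring K) :
    Subring K :=
  centreRing V (Subring.closure ((Q : Set K) ∪ {t | ∃ y ∈ Q, ∃ z ∈ Q,
    V.valuation y < 1 ∧ z ≠ 0 ∧ V.valuation z < 1 ∧
      (∀ w ∈ Q, V.valuation w < 1 → V.valuation w ≤ V.valuation z) ∧ t = y / z}))

/-- The sequence of quadratic transforms of the local ring of `Spec A` at the centre of `V`. -/
def quadraticSequence {K : Type u} [Field K] (V : ValuationSubring K) (A : Subring K) :
    ℕ → Subring K
  | 0 => centreRing V A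
  | n + 1 => quadraticTransform V (quadraticSequence V A n)

/-- The values of the maximal ideals in the sequence of quadratic transforms have an infinite sum:
every value of `V` is exceeded by the value of all products `z 0 * ... * z (n - 1)` of elements
`z i` of the maximal ideals of the rings of the sequence, for some `n`. -/
def IsDivergent {K : Type u} [Field K] (V : ValuationSubring K) (A : Subring K) : Prop :=
  ∀ x : K, x ≠ 0 → ∃ n : ℕ, ∀ z : ℕ → K,
    (∀ i < n, z i ∈ quadraticSequence V A i ∧ z i ≠ 0 ∧ V.valuation (z i) < 1) →
      V.valuation (∏ i ∈ Finset.range n, z i) < V.valuation x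

/-- The value group of `v` has the rational rank `r`: there are `r` nonzero elements of `K` with
independent values, and every value has a power which is a product of powers of their values. -/
def HasRationalRank {K : Type u} [Field K] (v : Valuation K ℝ≥0) (r : ℕ) : Prop :=
  ∃ x : Fin r → K, (∀ i, x i ≠ 0) ∧ (∀ m : Fin r → ℤ, ∏ i, v (x i) ^ m i = 1 → m = 0) ∧
    ∀ z : K, z ≠ 0 → ∃ n : ℕ, n ≠ 0 ∧ ∃ m : Fin r → ℤ, v z ^ n = ∏ i, v (x i) ^ m i

/-- The homomorphism from the ground field `k` to the residue field of a valuation `v` of the
extension `ι : k → K` which is trivial on `k`. -/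
noncomputable def residueMap {k K : Type u} [Field k] [Field K] (ι : k →+* K)
    (v : Valuation K ℝ≥0) (hk : ∀ c : k, c ≠ 0 → v (ι c) = 1) :
    k →+* ResidueField v.valuationSubring :=
  (residue v.valuationSubring).comp
    (ι.codRestrict v.valuationSubring.toSubring
      (@Pool.Agent.H893.DD.kV_mem k K _ _ ι.toAlgebra v hk))

/-- The residue field of `v` as an extension field of the ground field `k`. -/
noncomputable abbrev residueAlgebra {k K : Type u} [Field k] [Field K] (ι : k →+* K)
    (v : Valuation K ℝ≥0) (hk : ∀ c : k, c ≠ 0 → v (ι c) = 1) :
    Algebra k (ResidueField v.valuationSubring) :=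
  (residueMap ι v hk).toAlgebra

/-- The extension `κ / k` is separably generated: there is a finite transcendence basis `s` such
that `κ` is separable over `k(s)`. -/
def IsSeparablyGenerated (k κ : Type u) [Field k] [Field κ] [Algebra k κ] : Prop :=
  ∃ s : Finset κ, IsTranscendenceBasis k ((↑) : s → κ) ∧
    Algebra.IsSeparable (IntermediateField.adjoin k (s : Set κ)) κ

/-- The valuation ring `V` of the field `K` over `R` is nearly Abhyankar: the homomorphism
`ρ : R → K` is the composite of `σ : R → k` and `ι : k → K`, where `k` is a field of characteristic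
`p > 0` which consists of the fractions of elements of the image of `R`; `K` is finitely generated
over `k`, and `V` is the valuation ring of a valuation `v` of rank one which is trivial on `k`, has
the rational rank `r ≥ 1` and a separably generated residue field `κ(v)`, and whose deficiency
`tr.deg(K / k) - tr.deg(κ(v) / k) - r` is zero (the case of equality in the Abhyankar inequality) or
one. If it is one, `κ(v)` is finitely generated over `k`, and infinite if `r = 1`. -/
def IsNearlyAbhyankar {R K : Type u} [CommRing R] [Field K] (ρ : R →+* K)
    (V : ValuationSubring K) : Prop :=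
  ∃ (k : Type u) (_ : Field k) (σ : R →+* k) (ι : k →+* K), ρ = ι.comp σ ∧
    (∀ c : k, ∃ a b : R, σ b ≠ 0 ∧ c = σ a / σ b) ∧ (∃ p : ℕ, p.Prime ∧ CharP k p) ∧
    (letI := ι.toAlgebra
     Algebra.EssFiniteType k K ∧
      ∃ (v : Valuation K ℝ≥0) (hk : ∀ c : k, c ≠ 0 → v (ι c) = 1) (r : ℕ),
        V = v.valuationSubring ∧ 1 ≤ r ∧ HasRationalRank v r ∧
          (letI := residueAlgebra ι v hk
           IsSeparablyGenerated k (ResidueField v.valuationSubring) ∧
            (Algebra.trdeg k K =
                Algebra.trdeg k (ResidueField v.valuationSubring) + (r : Cardinal) ∨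
              (Algebra.trdeg k K =
                  Algebra.trdeg k (ResidueField v.valuationSubring) + ((r + 1 : ℕ) : Cardinal) ∧
                Algebra.EssFiniteType k (ResidueField v.valuationSubring) ∧
                (r = 1 → Infinite (ResidueField v.valuationSubring))))))

/-- The valuation ring `V` of the field `K` over `R` is ruled of deficiency two: the homomorphism
`ρ : R → K` is the composite of `σ : R → k` and `ι : k → K`, where `k` is a field of characteristic
`p > 0` which consists of the fractions of elements of the image of `R`; `K = E(t)` is finitely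
generated over `k`, `E ⊇ k` is a finitely generated subfield, and `V` is the valuation ring of a
valuation `v` of rank one which is trivial on `k`, such that `tr.deg(K / k) = r + s + 2` and
`tr.deg(E / k) = r + s + 1`, where `s` is the transcendence degree of the residue field `κ(v)` over
`k` and `r ≥ 2` is the rational rank of `v` and of its restriction to `E`: there are `x i ∈ E`,
`i < r`, with independent values, and every value of `K` has a power which is a product of powers of
their values. Moreover, `κ(v)` is finitely generated over `k`, and `E` contains lifts of the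
elements of a separating transcendence basis of `κ(v)` over `k`. -/
def IsRuledOfDeficiencyTwo {R K : Type u} [CommRing R] [Field K] (ρ : R →+* K)
    (V : ValuationSubring K) : Prop :=
  ∃ (k : Type u) (_ : Field k) (σ : R →+* k) (ι : k →+* K), ρ = ι.comp σ ∧
    (∀ c : k, ∃ a b : R, σ b ≠ 0 ∧ c = σ a / σ b) ∧ (∃ p : ℕ, p.Prime ∧ CharP k p) ∧
    (letI := ι.toAlgebra
     Algebra.EssFiniteType k K ∧
      ∃ (v : Valuation K ℝ≥0) (hk : ∀ c : k, c ≠ 0 → v (ι c) = 1), V = v.valuationSubring ∧
        ∃ (E : IntermediateField k K) (t : K) (r : ℕ) (x : Fin r → E), Algebra.EssFiniteType k E ∧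
          E ⊔ IntermediateField.adjoin k {t} = ⊤ ∧ 2 ≤ r ∧ (∀ i, x i ≠ 0) ∧
          (∀ m : Fin r → ℤ, ∏ i, v (x i : K) ^ m i = 1 → m = 0) ∧
          (∀ z : K, z ≠ 0 → ∃ n : ℕ, n ≠ 0 ∧ ∃ m : Fin r → ℤ, v z ^ n = ∏ i, v (x i : K) ^ m i) ∧
          (letI := residueAlgebra ι v hk
           Algebra.EssFiniteType k (ResidueField v.valuationSubring) ∧
            (∃ s : Finset (ResidueField v.valuationSubring),
              IsTranscendenceBasis k ((↑) : s → ResidueField v.valuationSubring) ∧
              Algebra.IsSeparable
                (IntermediateField.adjoin k (s : Set (ResidueField v.valuationSubring)))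
                (ResidueField v.valuationSubring) ∧
              ∀ i ∈ s, ∃ y : v.valuationSubring, (y : K) ∈ E ∧ residue v.valuationSubring y = i) ∧
            Algebra.trdeg k E =
              Algebra.trdeg k (ResidueField v.valuationSubring) + ((r + 1 : ℕ) : Cardinal) ∧
            Algebra.trdeg k K =
              Algebra.trdeg k (ResidueField v.valuationSubring) + ((r + 2 : ℕ) : Cardinal)))

/-- `V` is the composite of the valuation ring `V₁` and the valuation ring `W` of its residue
field. -/
def IsComposite {K : Type u} [Field K] (V V₁ : ValuationSubring K)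
    (W : ValuationSubring (ResidueField V₁)) : Prop :=
  ∀ z : K, z ∈ V ↔ ∃ hz : z ∈ V₁, residue V₁ ⟨z, hz⟩ ∈ W

section key

open Polynomial

variable {K : Type u} [Field K] (V : ValuationSubring K) {L : Subfield K} (θ : K)

/-- The monic polynomial `ϕ` over `L` of positive degree is a key polynomial for the valuation
`f ↦ |f(θ)|` of polynomials: if `f` and `g` are nonzero polynomials of smaller degree and
`f g = q ϕ + r` with `deg r < deg ϕ`, then `|q(θ) ϕ(θ)| < |f(θ) g(θ)|`. -/
def IsKey (ϕ : L[X]) : Prop :=
  ϕ.Monic ∧ 0 < ϕ.natDegree ∧ ∀ f g : L[X], f.degree < ϕ.degree → g.degree < ϕ.degree →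
    f ≠ 0 → g ≠ 0 → V.valuation (aeval θ (f * g /ₘ ϕ * ϕ)) < V.valuation (aeval θ (f * g))

/-- The polynomials of degree less than the degree of `ϕ` have an orthogonal basis over `L` with
respect to the valuation `f ↦ |f(θ)|`. -/
def IsDefectless (ϕ : L[X]) : Prop :=
  ∃ (n : ℕ) (β : Fin n → L[X]), (∀ i, (β i).degree < ϕ.degree ∧ β i ≠ 0) ∧
    (∀ f : L[X], f.degree < ϕ.degree → ∃ c : Fin n → L, f = ∑ i, C (c i) * β i) ∧
    ∀ (c : Fin n → L) (i : Fin n), V.valuation (aeval θ (C (c i) * β i)) ≤
      V.valuation (aeval θ (∑ j, C (c j) * β j))

/-- The value of `f(θ)` is determined by `ϕ`: in the `ϕ`-adic expansion `f = ∑ f_k ϕ ^ k` with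
`deg f_k < deg ϕ` the value of no term at `θ` is greater than the value of `f(θ)`. -/
def IsDetermined (ϕ f : L[X]) : Prop :=
  ∃ (N : ℕ) (d : ℕ → L[X]), (∀ k, (d k).degree < ϕ.degree) ∧
    f = ∑ k ∈ Finset.range N, d k * ϕ ^ k ∧
    ∀ k < N, V.valuation (aeval θ (d k * ϕ ^ k)) ≤ V.valuation (aeval θ f)

end key

open Polynomial in
/-- The extension `L ⊆ L'` of subfields of `K` is finite and has no defect with respect to the
valuation ring `V` of `K`: for some valuation ring `W` over `V` of some extension field `M` of `K`
(for example the henselization), some root `ζ ∈ M` of a monic polynomial `f` over `V ∩ L` with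
`|f'(ζ)| = 1`, and some nonzero elements `β i` of `L'`, the field `L'` is contained in the sum of
the lines `L(ζ) β i`, and the `β i` are orthogonal over `L(ζ) = L[ζ]`. -/
def IsFiniteWithoutDefect {K : Type u} [Field K] (V : ValuationSubring K) (L L' : Subfield K) :
    Prop :=
  L ≤ L' ∧ ∃ (M : Type u) (_ : Field M) (_ : Algebra K M) (W : ValuationSubring M) (ζ : M)
    (f : L[X]) (n : ℕ) (β : Fin n → K), W.comap (algebraMap K M) = V ∧ f.Monic ∧
    (∀ i, (f.coeff i : K) ∈ V) ∧ eval₂ ((algebraMap K M).comp L.subtype) ζ f = 0 ∧
    W.valuation (eval₂ ((algebraMap K M).comp L.subtype) ζ (derivative f)) = 1 ∧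
    (∀ i, β i ∈ L' ∧ β i ≠ 0) ∧
    (∀ z ∈ L', ∃ c : Fin n → L[X], algebraMap K M z =
      ∑ i, eval₂ ((algebraMap K M).comp L.subtype) ζ (c i) * algebraMap K M (β i)) ∧
    ∀ (c : Fin n → L[X]) (i : Fin n),
      W.valuation (eval₂ ((algebraMap K M).comp L.subtype) ζ (c i) * algebraMap K M (β i)) ≤
        W.valuation (∑ j, eval₂ ((algebraMap K M).comp L.subtype) ζ (c j) * algebraMap K M (β j))

open Polynomial in
/-- The subfields `L` of `K` which are reached from the field `E` by a tower of steps without
defect with respect to the valuation ring `V` of `K`. -/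
inductive Tower (E : Type u) {K : Type u} [Field E] [Field K] [Algebra E K]
    (V : ValuationSubring K) : Subfield K → Prop
  /-- The tower starts with (the image of) `E`. -/
  | base : Tower E V (algebraMap E K).fieldRange
  /-- The step from `L` to `L(t)`, where `t` is transcendental and the value of every polynomial in
  `t` is determined by a defectless key polynomial. -/
  | transcendental (L : Subfield K) (t : K) : Tower E V L → Transcendental L t →
    (∀ f : L[X], ∃ ϕ : L[X], IsKey V t ϕ ∧ IsDefectless V t ϕ ∧ IsDetermined V t ϕ f) →
    Tower E V (L ⊔ Subfield.closure {t})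
  /-- The step from `L` to a finite extension `L'` without defect. -/
  | finite (L L' : Subfield K) : Tower E V L → IsFiniteWithoutDefect V L L' → Tower E V L'

/-- The valuation ring `V` of the field `L` has rank one: it is a maximal proper subring which is a
valuation ring. -/
def IsRankOne {L : Type u} [Field L] (V : ValuationSubring L) : Prop :=
  V ≠ ⊤ ∧ ∀ U : ValuationSubring L, V < U → U = ⊤

/-- The rational rank of `V` is finite: there are finitely many nonzero elements `γ i` of the
subfield `F` such that every value has a power which is the value of a product of powers of the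
`γ i`. -/
def HasFiniteRationalRank (F : Type u) {L : Type u} [Field F] [Field L] [Algebra F L]
    (V : ValuationSubring L) : Prop :=
  ∃ (r : ℕ) (γ : Fin r → F), (∀ i, γ i ≠ 0) ∧ ∀ z : L, z ≠ 0 → ∃ n : ℕ, 0 < n ∧
    ∃ m : Fin r → ℤ, V.valuation z ^ n = V.valuation (algebraMap F L (∏ i, γ i ^ m i))

open Polynomial in
/-- The extension `L = F(ζ)` of `F` lies in the henselization of `F` with respect to `V ∩ F`: the
minimal polynomial `h` of `ζ` over `F` has coefficients in `V`, its derivative satisfies
`|h'(ζ)| = 1`, and `|ζ - a| < 1` for some `a ∈ F`. -/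
def IsInHenselization (F : Type u) {L : Type u} [Field F] [Field L] [Algebra F L]
    (V : ValuationSubring L) : Prop :=
  ∃ (ζ : L) (a : F), (∀ z : L, ∃ f : F[X], aeval ζ f = z) ∧
    (∀ i, algebraMap F L ((minpoly F ζ).coeff i) ∈ V) ∧
    V.valuation (aeval ζ (derivative (minpoly F ζ))) = 1 ∧
    V.valuation (ζ - algebraMap F L a) < 1

/-- The smallest class of valuation rings of fields over `R` which contains the discrete and
divergent ones, the known ones, the nearly Abhyankar ones and the ruled ones of deficiency two, and
which is closed under composition, towers without defect and henselian descent. -/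
inductive Admissible (R : Type u) [CommRing R] :
    ∀ {K : Type u} [Field K], (R →+* K) → ValuationSubring K → Prop
  /-- The trivial valuation rings. -/
  | trivial {K : Type u} [Field K] (ρ : R →+* K) : Admissible R ρ (⊤ : ValuationSubring K)
  /-- The discrete valuation rings of rank one, and the valuation rings with divergent sequences of
  quadratic transforms of all `R`-algebras of finite type. -/
  | divergent {K : Type u} [Field K] (ρ : R →+* K) (V : ValuationSubring K) :
    (IsDiscreteValuationRing V ∨ ∀ T : Set K, T.Finite → adjoined ρ T ≤ V.toSubring →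
      IsDivergent V (adjoined ρ T)) → Admissible R ρ V
  /-- The valuation rings of a finitely generated field which are log uniformizable on the spectra
  of all `R`-algebras of finite type with this fraction field. -/
  | known {K : Type u} [Field K] (ρ : R →+* K) (V : ValuationSubring K) : IsFinitelyGenerated ρ →
    (∀ T : Set K, T.Finite → adjoined ρ T ≤ V.toSubring → HasFractionField (adjoined ρ T) →
      IsLogUniformizable V (adjoined ρ T)) → Admissible R ρ V
  /-- The nearly Abhyankar valuation rings. -/
  | nearlyAbhyankar {K : Type u} [Field K] (ρ : R →+* K) (V : ValuationSubring K) :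
    IsNearlyAbhyankar ρ V → Admissible R ρ V
  /-- The ruled valuation rings of deficiency two. -/
  | ruled {K : Type u} [Field K] (ρ : R →+* K) (V : ValuationSubring K) :
    IsRuledOfDeficiencyTwo ρ V → Admissible R ρ V
  /-- The composites of a valuation ring `V₁` and a valuation ring `W` of its residue field. -/
  | composite {K : Type u} [Field K] (ρ : R →+* K) (V V₁ : ValuationSubring K)
    (W : ValuationSubring (ResidueField V₁)) (hρ : ∀ a, ρ a ∈ V₁.toSubring) :
    IsComposite V V₁ W → Admissible R ρ V₁ →
    Admissible R ((residue V₁).comp (ρ.codRestrict V₁.toSubring hρ)) W → Admissible R ρ V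
  /-- The valuation rings of a field `K` which is reached by a tower without defect from a finitely
  generated field `E` whose valuation ring is in the class. -/
  | tower {E K : Type u} [Field E] [Field K] [Algebra E K] (ρ : R →+* E)
    (V : ValuationSubring K) : (∀ a, algebraMap E K (ρ a) ∈ V) → IsFinitelyGenerated ρ →
    Admissible R ρ (V.comap (algebraMap E K)) → Tower E V ⊤ →
    Admissible R ((algebraMap E K).comp ρ) V
  /-- Henselian descent: the valuation rings `V ∩ F` of a finitely generated field `F`, where `V` is
  a valuation ring of rank one in the class of a finite extension of `F` in the henselization. -/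
  | descent {F L : Type u} [Field F] [Field L] [Algebra F L] (ρ : R →+* F)
    (V : ValuationSubring L) : (∀ a, algebraMap F L (ρ a) ∈ V) → IsFinitelyGenerated ρ →
    IsRankOne V → HasFiniteRationalRank F V → IsInHenselization F V →
    Admissible R ((algebraMap F L).comp ρ) V → Admissible R ρ (V.comap (algebraMap F L))

lemma quadraticSequence_eq {K : Type u} [Field K] (V : ValuationSubring K) (A : Subring K) :
    quadraticSequence V A = qseq V A := by
  funext n
  induction n with
  | zero => rfl
  | succ n ih =>
    change quadraticTransform V (quadraticSequence V A n) = qt V.toSubring (qseq V A n)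
    rw [ih, qt_val]
    rfl

lemma IsDivergent.dv {K : Type u} [Field K] {V : ValuationSubring K} {A : Subring K}
    (h : IsDivergent V A) : Dv V (qseq V A) := by
  rw [← quadraticSequence_eq]
  exact dv_of_lt h

/-- The steps of a tower. -/
lemma Tower.inv {E K : Type u} [Field E] [Field K] [Algebra E K] {V : ValuationSubring K}
    {R' : Subring K} (h0 : Pool.Agent.H176.DT.Inv V R' (algebraMap E K).fieldRange.subtype)
    {L : Subfield K} (hL : Tower E V L) : Pool.Agent.H176.DT.Inv V R' L.subtype := by
  have kp : ∀ {L : Subfield K} {θ : K} {ϕ : Polynomial L}, IsKey V θ ϕ → IsDefectless V θ ϕ →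
      ∃ (n : ℕ) (β : Fin n → Polynomial L), Pool.Agent.H176.DT.KP V θ ϕ β := by
    rintro L θ ϕ ⟨h1, h2, h3⟩ ⟨n, β, h4, h5, h6⟩
    exact ⟨n, β, h1, h2, fun i => (h4 i).1, fun i => (h4 i).2, h5, h6, h3⟩
  induction hL with
  | base => exact h0
  | transcendental L t _ ht hdom ih =>
    refine Pool.Agent.H176.DT.sub_trans V _ t ht (fun f => ?_) ih
    obtain ⟨ϕ, h1, h2, N, d, h3, h4, h5⟩ := hdom f
    obtain ⟨n, β, h6⟩ := kp h1 h2
    exact ⟨ϕ, n, β, h6, N, d, ⟨h3, h4⟩, h5⟩
  | finite L L' _ hnd ih => exact Pool.Agent.H176.DT.sub_nd V _ hnd.1 hnd.2 ih

lemma Admissible.good {R : Type u} [CommRing R] (hR : HJ R) {K : Type u} [Field K]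
    {ρ : R →+* K} {V : ValuationSubring K} (h : Admissible R ρ V) :
    Pool.Agent.R187.CT.Good ρ V := by
  induction h with
  | trivial ρ => exact Pool.Agent.R187.CT.good_top ρ
  | divergent ρ V h =>
    exact Pool.Agent.R187.CT.good_dv hR ρ V (h.imp_right fun h T hT hTV => (h T hT hTV).dv)
  | known ρ V hK h => exact Pool.Agent.R187.CT.good_given hR ρ V hK h
  | composite ρ V V₁ W hρ hc _ _ ih₁ ihW =>
    exact Pool.Agent.R187.CT.good_comp hR ρ hρ hc ih₁ ihW
  | tower ρ V hρ hE _ ht ih =>
    exact Pool.Agent.R187.CT.good_tower hR ρ V hρ hE ih fun R' h0 => ht.inv h0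
  | @descent F L _ _ _ ρ V hρ hF hr1 hrr hhens _ ih =>
    obtain ⟨ζ, a, hgen, hcoef, hder, hres⟩ := hhens
    have hint : IsIntegral F ζ := by
      by_contra h1
      rw [minpoly.eq_zero h1, Polynomial.derivative_zero, map_zero, map_zero] at hder
      exact zero_ne_one hder
    have halg : Algebra.IsAlgebraic F L := ⟨fun z => by
      obtain ⟨f, rfl⟩ := hgen z
      rw [Polynomial.aeval_eq_sum_range]
      refine (IsIntegral.sum _ fun i _ => ?_).isAlgebraic
      exact (hint.pow i).smul _⟩
    exact good_desc hR ρ V hρ hF ζ hgen hcoef hder a hres
      (Pool.Agent.H893.DD.t_arch V hr1.2) (Pool.Agent.H893.DD.t_nt V hr1.1) hrr ih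
  | @nearlyAbhyankar K _ ρ V h =>
    obtain ⟨k, _, σ, ι, rfl, hσ, ⟨p, hp, hchar⟩, h⟩ := h
    let _ := ι.toAlgebra
    have hpf : Fact p.Prime := ⟨hp⟩
    obtain ⟨hess, v, hk, r, rfl, hr, ⟨x, hx0, hind, hrr⟩, hsg, h⟩ := h
    have hess' : Algebra.EssFiniteType k K := hess
    exact @Pool.Agent.H893.AB.good_ring2 R k K _ _ p _ hchar σ hσ _ _ hess' v hk hsg r hr h x hx0
      hind hrr
  | @ruled K _ ρ V h =>
    obtain ⟨k, _, σ, ι, rfl, hσ, ⟨p, hp, hchar⟩, h⟩ := h
    let _ := ι.toAlgebra
    have hpf : Fact p.Prime := ⟨hp⟩
    obtain ⟨hess, v, hk, rfl, h⟩ := h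
    have hess' : Algebra.EssFiniteType k K := hess
    exact @Pool.Agent.H893.TW.good_rul_ring R k K _ _ p _ hchar σ hσ _ _ hess' v hk h

/-- Let `R` be a base ring: each quotient domain `R / 𝔭` is a field, or is of finite type over a
regular domain `R₁` such that `R₁` is `F`-finite, or `R₁` is formally smooth over a perfect field,
or `R₁` is a subring of `R / 𝔭` and `R / 𝔭` has characteristic zero. Let `K` be a field which is an
`R`-algebra by `ρ`, and let `V` be a valuation ring of `K` in the class `Admissible R` generated by
the discrete, divergent, known and nearly Abhyankar valuation rings and the ruled ones of deficiency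
two under composition, towers without defect and henselian descent. Let `S` be a local domain with
the fraction field `K` which is essentially of finite type over `R` and dominated by `V`, that is,
the local ring at the centre of `V` of an `R`-algebra `A = adjoined ρ G` of finite type in `V` with
the fraction field `K`. Then `V` admits embedded local uniformization on `S`. -/
theorem result {R : Type u} [CommRing R] (hR : IsBaseRing R) {K : Type u} [Field K] (ρ : R →+* K)
    (V : ValuationSubring K) (hV : Admissible R ρ V) (G : Set K) (hG : G.Finite) (A : Subring K)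
    (hAG : A = adjoined ρ G) (hAV : A ≤ V.toSubring) (hAK : HasFractionField A) (S : Subring K)
    (hS : S = centreRing V A) : AdmitsEmbeddedLocalUniformization V S := by
  have hHJ : HJ R := BR.hj hR
  have h1 : Pool.Agent.H176.DT.SU V A := by
    subst hAG
    have hN : IsNoetherianRing (adjoined ρ G) := Pool.Agent.R187.CT.noe_rg hHJ ρ hG
    obtain ⟨T₀, -, h⟩ := hV.good hHJ
    exact Pool.Agent.Q299.TD.su_of_gp ⟨hAV, hAK⟩ (h G hG hAV fun t _ => hAK t)
  intro Z hZ hZ0
  obtain ⟨H, hH, hHV, hreg, h2⟩ := Pool.Agent.H176.DT.emb_LU V A hAV h1 Z hZ hZ0
  have h3 : centreRing V (Subring.closure ((S : Set K) ∪ H)) =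
      centreRing V (Subring.closure ((A : Set K) ∪ H)) := by
    rw [hS]
    exact Pool.Agent.H176.DT.lo_cl hAV fun z hz => hHV (Subring.subset_closure (Or.inr hz))
  refine ⟨H, hH, _, rfl, ?_, ?_⟩
  · rw [Subring.closure_le]
    rintro z (hz | hz)
    · rw [hS] at hz
      exact lo_le hAV hz
    · exact hHV (Subring.subset_closure (Or.inr hz))
  · rw [h3]
    obtain ⟨n, x, h4⟩ := h2
    exact ⟨hreg, n, x, h4⟩

end Pool.Agent.Results.MP_3029eb_ag.LocalDomainsWithDefect
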