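import Pool.Agent.H413.XT.L1

/-!
MP_3029eb_ag: uniform local uniformization: one blowing up uniformizes all valuation rings with
principal maximal ideal in which a given function has bounded order.

Let `A` be a finitely generated domain over a field `k` (any dimension, any characteristic), and let
`f ≠ 0` be an element of `A` such that the localizations of `A` at all primes which do not contain
`f` are regular. Let `W` be a valuation ring which contains `A`, of any rank, with or without defect,
whose maximal ideal is generated by one element `ϖ`: so `W` is composite of an arbitrary valuation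
ring and a discrete valuation ring. If `f` is not in all powers of the maximal ideal of `W` then its
order at `W` is a number `d`. The theorem says that for every `d` there is one blowing up of `Spec A`,
an isomorphism over all regular points of `Spec A`, which is regular at the centres of ALL these
`W` for which the order of `f` is at most `d`. In particular, for every local domain `R` essentially of
finite type over `k` the same is true for all `W` of this kind which are centred on `R`: the
algebras of the definition of local uniformization come from one blowing up.
-/

set_option autoImplicit false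

namespace Pool.Agent.Results.MP_3029eb_ag.UniformLocalUniformization

variable {k F : Type} [Field k] [Field F] [Algebra k F]

/-- The chart `A[l / j : l ∈ J]` of the blowing up of the fractional ideal generated by `J`. -/
def blowUpChart (A : Subalgebra k F) (J : Submodule k F) (j : F) : Subalgebra k F :=
  Algebra.adjoin k ((A : Set F) ∪ {t | ∃ l ∈ J, t = l / j})

/-- The blowing up of `J` is an isomorphism over the point `P` of `Spec A`: the fractional ideal
generated by `J` is principal there, generated by some `j ∈ J`. -/
def IsIsoAt (A : Subalgebra k F) (J : Submodule k F) (P : Ideal A) : Prop :=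
  ∃ j ∈ J, j ≠ 0 ∧ ∀ l ∈ J, ∃ a s : A, s ∉ P ∧ l * (s : F) = j * (a : F)

/-- The maximal ideal of the valuation ring `W` is principal and generated by `ϖ ≠ 0`. -/
def IsUniformizer (W : ValuationSubring F) (ϖ : F) : Prop :=
  ϖ ≠ 0 ∧ W.valuation ϖ < 1 ∧ ∀ z, W.valuation z < 1 → z / ϖ ∈ W

/-- The blowing up of `J` is regular at the centre of the valuation ring `W` (which is in the
chart `j` such that `l / j ∈ W` for all `l ∈ J`). -/
def IsRegularAtCentre (A : Subalgebra k F) (J : Submodule k F) (W : ValuationSubring F) : Prop :=
  ∃ j ∈ J, j ≠ 0 ∧ (∀ l ∈ J, l / j ∈ W) ∧ ∀ (P : Ideal (blowUpChart A J j)) [P.IsPrime],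
    (∀ b : blowUpChart A J j, b ∈ P ↔ W.valuation (b : F) < 1) →
    IsRegularLocalRing (Localization.AtPrime P)

/-- Let `A` be a finitely generated `k`-algebra in the field `F` and `f ∈ A` nonzero, such that `A` is
regular at all primes which do not contain `f`, and let `d` be an integer. There is a finite
dimensional subspace `J` of `F` such that the blowing up of `J` is an isomorphism over all regular
points of `Spec A` and regular at the centres of all valuation rings `W` of `F` which contain `A`
and have a principal maximal ideal, generated by `ϖ`, such that the order of `f` is at most `d`: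
`ϖ ^ d / f ∈ W`. -/
theorem result (A : Subalgebra k F) (hA : A.FG) (f : F) (hf : f ∈ A) (hf0 : f ≠ 0)
    (hreg : ∀ (P : Ideal A) [P.IsPrime], (⟨f, hf⟩ : A) ∉ P →
      IsRegularLocalRing (Localization.AtPrime P)) (d : ℕ) :
    ∃ J : Submodule k F, J.FG ∧
      (∀ (P : Ideal A) [P.IsPrime], IsRegularLocalRing (Localization.AtPrime P) →
        IsIsoAt A J P) ∧
      ∀ (W : ValuationSubring F) (ϖ : F), (∀ a ∈ A, a ∈ W) → IsUniformizer W ϖ → ϖ ^ d / f ∈ W →
        IsRegularAtCentre A J W := by
  obtain ⟨J, hJ, h1, h2⟩ := Pool.Agent.H413.XT.h413_lu_uniform A hA f hf hf0 hreg d
  exact ⟨J, hJ, h1, fun W ϖ hAW h3 h4 => h2 W ϖ hAW h3.1 h3.2.1 h3.2.2 h4⟩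

end Pool.Agent.Results.MP_3029eb_ag.UniformLocalUniformization
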